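import Pool.Agent.V8H30.TN.Defs

set_option autoImplicit false

namespace Pool.Agent.V8H30.TN

section gen

variable {α : Type} (L E : α → α → Bool) (s : α → Bool)

/-- `q` is on the outer side of `p` -/
def oG (p q : α) : Bool := !E p q && xor (L p q) (xor (s p) (s q))

/-- equality of points -/
def eG (p q : α) : Bool := E p q && (s p == s q)

/-- `q` is in the inner set of `p` -/
def iG (p q : α) : Bool := !eG E s p q && !oG L E s p q

/-- tail of the edge `a b` -/
def tG (a b : α) : α := if E a b then a else if oG L E s a b then a else b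

/-- `c d` crosses the diameter through `p` -/
def bG (p c d : α) : Bool :=
  !E p c && !E p d && xor (xor (L p c) (s c)) (xor (L p d) (s d))

/-- number of coordinates which distinguish `a b` from `c d` -/
def cG (a b c d : α) : ℕ :=
  (iG L E s a c && iG L E s a d).toNat + (iG L E s b c && iG L E s b d).toNat +
  (iG L E s c a && iG L E s c b).toNat + (iG L E s d a && iG L E s d b).toNat +
  (bG L E s (tG L E s a b) c d).toNat + (bG L E s (tG L E s c d) a b).toNat

/-- the distance of `a b` and `c d` -/
def dG (a b c d : α) : ℕ :=
  if (eG E s a c && eG E s b d) || (eG E s a d && eG E s b c) then 0 else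
    if eG E s a c || eG E s a d || eG E s b c || eG E s b d then 1 else 2

end gen

/-- the finite check -/
theorem check : ∀ r0 r1 r2 r3 : Fin 4, ∀ s0 s1 s2 s3 : Bool,
    (let r : Fin 4 → Fin 4 := ![r0, r1, r2, r3]
     let s : Fin 4 → Bool := ![s0, s1, s2, s3]
     let L : Fin 4 → Fin 4 → Bool := fun i j => decide (r i < r j)
     let E : Fin 4 → Fin 4 → Bool := fun i j => decide (r i = r j)
     (eG E s 0 1 || eG E s 2 3 || (cG L E s 0 1 2 3 == dG E s 0 1 2 3)) = true) := by
  decide +kernel

end Pool.Agent.V8H30.TN
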