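import Mathlib

/-!
Addressings of graphs and the triangular graphs.
-/

set_option autoImplicit false

namespace Pool.Agent.V8H30.TN

/-- `a` is an addressing of length `N` of the graph `G`: words over `{0, 1, *}` (`some false`,
`some true`, `none`), the distance of two vertices is the number of coordinates at which one of the
two words has `0` and the other one `1` -/
def IsAddressing {V : Type} (G : SimpleGraph V) (N : ℕ) (a : V → Fin N → Option Bool) : Prop :=
  ∀ u v : V, G.dist u v = Nat.card {i : Fin N //
    (a u i = some false ∧ a v i = some true) ∨ (a u i = some true ∧ a v i = some false)}

/-- the addressing number: the least length of an addressing -/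
noncomputable def addressingNumber {V : Type} (G : SimpleGraph V) : ℕ :=
  sInf {N : ℕ | ∃ a : V → Fin N → Option Bool, IsAddressing G N a}

/-- the triangular graph `T_n`: the 2-subsets of an `n`-set, adjacent when they share exactly one
element -/
def Tri (n : ℕ) : SimpleGraph {e : Finset (Fin n) // e.card = 2} where
  Adj e f := (e.1 ∩ f.1).card = 1
  symm := ⟨fun e f h => by rw [Finset.inter_comm]; exact h⟩
  loopless := ⟨fun e h => by
    rw [Finset.inter_self] at h
    have := e.2
    omega⟩

end Pool.Agent.V8H30.TN
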