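import Pool.Agent.V8H30.TN.Main

set_option autoImplicit false

namespace Pool.Agent.V8H30.TN

variable {n : ℕ}

theorem inter_card {a b c d : Fin n} (hab : a ≠ b) :
    (({a, b} : Finset (Fin n)) ∩ {c, d}).card =
      (decide (a = c ∨ a = d)).toNat + (decide (b = c ∨ b = d)).toNat := by
  rw [← card_pair_filter hab (fun p => decide (p = c ∨ p = d))]
  congr 1
  ext p
  simp only [Finset.mem_inter, Finset.mem_filter, Finset.mem_insert, Finset.mem_singleton,
    decide_eq_true_eq]

theorem dist_two {u v g : {e : Finset (Fin n) // e.card = 2}} (huv : u ≠ v)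
    (h : ¬ (Tri n).Adj u v) (h1 : (Tri n).Adj u g) (h2 : (Tri n).Adj g v) :
    (Tri n).dist u v = 2 := by
  have hw : (Tri n).dist u v ≤ 2 :=
    SimpleGraph.dist_le (SimpleGraph.Walk.cons h1 (SimpleGraph.Walk.cons h2 SimpleGraph.Walk.nil))
  have hr : (Tri n).Reachable u v :=
    ⟨SimpleGraph.Walk.cons h1 (SimpleGraph.Walk.cons h2 SimpleGraph.Walk.nil)⟩
  have h0 : (Tri n).dist u v ≠ 0 := by
    intro h0
    exact huv (hr.dist_eq_zero_iff.1 h0)
  have h3 : (Tri n).dist u v ≠ 1 := by
    intro h3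
    exact h (SimpleGraph.dist_eq_one_iff_adj.1 h3)
  omega

theorem dist_eq (u v : {e : Finset (Fin n) // e.card = 2}) {a b c d : Fin n} (hab : a ≠ b)
    (hcd : c ≠ d) (hu : u.1 = {a, b}) (hv : v.1 = {c, d}) :
    (Tri n).dist u v = dG EN sN a.1 b.1 c.1 d.1 := by
  have hG : dG EN sN a.1 b.1 c.1 d.1 =
      if (a = c ∧ b = d) ∨ (a = d ∧ b = c) then 0 else
        if a = c ∨ a = d ∨ b = c ∨ b = d then 1 else 2 := by
    unfold dG
    simp only [Bool.or_eq_true, Bool.and_eq_true, eG_iff, Fin.ext_iff, or_assoc]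
  rw [hG]
  have hadj : (Tri n).Adj u v ↔
      (decide (a = c ∨ a = d)).toNat + (decide (b = c ∨ b = d)).toNat = 1 := by
    show (u.1 ∩ v.1).card = 1 ↔ _
    rw [hu, hv, inter_card hab]
  split_ifs with h1 h2
  · have huv : u = v := by
      apply Subtype.ext
      rw [hu, hv]
      rcases h1 with ⟨h, h'⟩ | ⟨h, h'⟩
      · rw [h, h']
      · rw [h, h', Finset.pair_comm]
    rw [huv, SimpleGraph.dist_self]
  · rw [SimpleGraph.dist_eq_one_iff_adj, hadj]
    have h3 : (a = c ∨ a = d) ∨ (b = c ∨ b = d) := by tauto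
    have h4 : ¬ ((a = c ∨ a = d) ∧ (b = c ∨ b = d)) := by
      rintro ⟨h | h, h' | h'⟩
      · exact hab (h.trans h'.symm)
      · exact h1 (Or.inl ⟨h, h'⟩)
      · exact h1 (Or.inr ⟨h, h'⟩)
      · exact hab (h.trans h'.symm)
    by_cases h5 : a = c ∨ a = d
    · have h6 : ¬ (b = c ∨ b = d) := fun h => h4 ⟨h5, h⟩
      rw [decide_eq_true h5, decide_eq_false h6]; rfl
    · have h6 : b = c ∨ b = d := by tauto
      rw [decide_eq_false h5, decide_eq_true h6]; rfl
  · have hac : a ≠ c := by tauto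
    have had : a ≠ d := by tauto
    have hbc : b ≠ c := by tauto
    have hbd : b ≠ d := by tauto
    have hg : ({a, c} : Finset (Fin n)).card = 2 := Finset.card_pair hac
    apply dist_two (g := ⟨{a, c}, hg⟩)
    · intro h
      have h3 : u.1 = v.1 := by rw [h]
      rw [hu, hv] at h3
      have h4 : a ∈ ({c, d} : Finset (Fin n)) := by rw [← h3]; simp
      simp only [Finset.mem_insert, Finset.mem_singleton] at h4
      tauto
    · rw [hadj]
      have h5 : ¬ (a = c ∨ a = d) := by tauto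
      have h6 : ¬ (b = c ∨ b = d) := by tauto
      rw [decide_eq_false h5, decide_eq_false h6]
      decide
    · show (u.1 ∩ {a, c}).card = 1
      rw [hu, inter_card hab]
      have h5 : a = a ∨ a = c := Or.inl rfl
      have h6 : ¬ (b = a ∨ b = c) := by
        rintro (h | h)
        · exact hab h.symm
        · exact hbc h
      rw [decide_eq_true h5, decide_eq_false h6]; rfl
    · show (({a, c} : Finset (Fin n)) ∩ v.1).card = 1
      rw [hv, inter_card hac]
      have h5 : ¬ (a = c ∨ a = d) := by tauto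
      have h6 : c = c ∨ c = d := Or.inl rfl
      rw [decide_eq_false h5, decide_eq_true h6]; rfl

/-- an addressing of length `⌈3 n / 2⌉` of the triangular graph `T_n` -/
theorem exists_addressing (n : ℕ) :
    ∃ a : {e : Finset (Fin n) // e.card = 2} → Fin ((3 * n + 1) / 2) → Option Bool,
      IsAddressing (Tri n) ((3 * n + 1) / 2) a := by
  have hcard : Fintype.card (Fin ((3 * n + 1) / 2)) =
      Fintype.card (Fin n ⊕ Fin ((n + 1) / 2)) := by
    rw [Fintype.card_sum, Fintype.card_fin, Fintype.card_fin, Fintype.card_fin]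
    omega
  let φ : Fin ((3 * n + 1) / 2) ≃ Fin n ⊕ Fin ((n + 1) / 2) := Fintype.equivOfCardEq hcard
  refine ⟨fun e i => adr n e.1 (φ i), ?_⟩
  intro u v
  obtain ⟨a, b, hab, hu⟩ := Finset.card_eq_two.1 u.2
  obtain ⟨c, d, hcd, hv⟩ := Finset.card_eq_two.1 v.2
  have hab' : a.1 ≠ b.1 := fun h => hab (Fin.ext h)
  have hcd' : c.1 ≠ d.1 := fun h => hcd (Fin.ext h)
  rw [dist_eq u v hab hcd hu hv, ← main_nat hab' hcd', ← count hab hcd, ← hu, ← hv,
    ← Fintype.card_subtype, ← Nat.card_eq_fintype_card]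
  exact (Nat.card_congr (φ.subtypeEquiv (fun i => Iff.rfl))).symm

theorem addressingNumber_le (n : ℕ) : addressingNumber (Tri n) ≤ (3 * n + 1) / 2 :=
  Nat.sInf_le (exists_addressing n)

end Pool.Agent.V8H30.TN
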