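import Pool.Agent.V8H30.TN.Lower

set_option autoImplicit false

open Finset

namespace Pool.Agent.V8H30.TN

variable {n : ℕ}

/-- `st` as a linear map -/
def stL (w : Fin n) : (Ed n → ℝ) →ₗ[ℝ] ℝ where
  toFun z := st z w
  map_add' x y := by
    simp only [st, Pi.add_apply, ← Finset.sum_add_distrib]
    refine Finset.sum_congr rfl fun e _ => ?_
    split_ifs <;> simp
  map_smul' c x := by
    simp only [st, Pi.smul_apply, smul_eq_mul, RingHom.id_apply, Finset.mul_sum]
    refine Finset.sum_congr rfl fun e _ => ?_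
    split_ifs <;> simp

/-- `sd` as a linear map -/
def sdL {N : ℕ} (a : Ed n → Fin N → Option Bool) (b : Bool) (i : Fin N) :
    (Ed n → ℝ) →ₗ[ℝ] ℝ where
  toFun z := sd a b i z
  map_add' x y := by
    simp only [sd, Pi.add_apply, ← Finset.sum_add_distrib]
    refine Finset.sum_congr rfl fun e _ => ?_
    split_ifs <;> simp
  map_smul' c x := by
    simp only [sd, Pi.smul_apply, smul_eq_mul, RingHom.id_apply, Finset.mul_sum]
    refine Finset.sum_congr rfl fun e _ => ?_
    split_ifs <;> simp

/-- the sum of all entries as a linear map -/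
def totL : (Ed n → ℝ) →ₗ[ℝ] ℝ where
  toFun z := ∑ e, z e
  map_add' x y := by simp only [Pi.add_apply, ← Finset.sum_add_distrib]
  map_smul' c x := by simp only [Pi.smul_apply, smul_eq_mul, RingHom.id_apply, Finset.mul_sum]

/-- combinations of the `g v` and of `z0` -/
def zL (g : Fin n → Ed n → ℝ) (z0 : Ed n → ℝ) : ((Fin n → ℝ) × ℝ) →ₗ[ℝ] (Ed n → ℝ) where
  toFun p := ∑ v, p.1 v • g v + p.2 • z0
  map_add' p q := by
    simp only [Prod.fst_add, Prod.snd_add, Pi.add_apply, add_smul, Finset.sum_add_distrib]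
    abel
  map_smul' c p := by
    simp only [Prod.smul_fst, Prod.smul_snd, Pi.smul_apply, smul_eq_mul, mul_smul,
      RingHom.id_apply, smul_add, Finset.smul_sum]

/-- the indicator vector of an edge -/
def ind (f : Ed n) : Ed n → ℝ := fun e => if e = f then 1 else 0

theorem st_ind (f : Ed n) (w : Fin n) : stL w (ind f) = if w ∈ f.1 then 1 else 0 := by
  show st (ind f) w = _
  unfold st ind
  rw [Finset.sum_eq_single f]
  · simp
  · intro e _ he; simp [he]
  · intro h; exact absurd (mem_univ _) h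

theorem sd_ind {N : ℕ} (a : Ed n → Fin N → Option Bool) (b : Bool) (i : Fin N) (f : Ed n) :
    sdL a b i (ind f) = if a f i = some b then 1 else 0 := by
  show sd a b i (ind f) = _
  unfold sd ind
  rw [Finset.sum_eq_single f]
  · simp
  · intro e _ he; simp [he]
  · intro h; exact absurd (mem_univ _) h

/-- a vector with `st = δ_v` -/
theorem exists_g (hn : 3 ≤ n) (v : Fin n) : ∃ g : Ed n → ℝ, ∀ w, stL w g = if w = v then 1 else 0 := by
  obtain ⟨x, hx⟩ : ∃ x : Fin n, x ∉ ({v} : Finset (Fin n)) := by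
    by_contra h
    push Not at h
    have := Finset.card_le_card (show (univ : Finset (Fin n)) ⊆ {v} from fun x _ => h x)
    rw [Finset.card_fin, Finset.card_singleton] at this
    omega
  obtain ⟨y, hy⟩ : ∃ y : Fin n, y ∉ ({v, x} : Finset (Fin n)) := by
    by_contra h
    push Not at h
    have := Finset.card_le_card (show (univ : Finset (Fin n)) ⊆ {v, x} from fun x _ => h x)
    have h2 := Finset.card_le_two (a := v) (b := x)
    rw [Finset.card_fin] at this
    omega
  rw [Finset.mem_singleton] at hx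
  rw [Finset.mem_insert, Finset.mem_singleton, not_or] at hy
  obtain ⟨hy1, hy2⟩ := hy
  refine ⟨(1/2 : ℝ) • (ind ⟨{v, x}, Finset.card_pair (Ne.symm hx)⟩ +
    ind ⟨{v, y}, Finset.card_pair (Ne.symm hy1)⟩ - ind ⟨{x, y}, Finset.card_pair (Ne.symm hy2)⟩), ?_⟩
  intro w
  rw [map_smul, map_sub, map_add, st_ind, st_ind, st_ind]
  simp only [Finset.mem_insert, Finset.mem_singleton, smul_eq_mul]
  by_cases h1 : w = v
  · subst h1
    simp [Ne.symm hx, Ne.symm hy1]
    norm_num
  · by_cases h2 : w = x
    · subst h2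
      simp [hx, Ne.symm hy2]
    · by_cases h3 : w = y
      · subst h3
        simp [hy1, hy2]
      · simp [h1, h2, h3]

theorem two_tot (z : Ed n → ℝ) : 2 * totL z = ∑ w, stL w z := by
  show 2 * ∑ e, z e = ∑ w, st z w
  unfold st
  rw [Finset.sum_comm, Finset.mul_sum]
  refine Finset.sum_congr rfl fun e _ => ?_
  rw [← Finset.sum_filter, Finset.sum_const]
  have : (univ.filter (fun w => w ∈ e.1)).card = 2 := by
    rw [Finset.filter_mem_eq_inter, Finset.univ_inter]; exact e.2
  rw [this]
  simp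

theorem key {N : ℕ} (hn : 3 ≤ n) (hN : N < n) {a : Ed n → Fin N → Option Bool}
    (ha : IsAddressing (Tri n) N a) (z0 : Ed n → ℝ) (h0 : ∀ w, stL w z0 = 0)
    (b : Bool) (i : Fin N) : sdL a b i z0 = 0 := by
  choose g hg using exists_g hn
  let L : ((Fin n → ℝ) × ℝ) →ₗ[ℝ] ((Fin N → ℝ) × ℝ) :=
    LinearMap.prod (LinearMap.pi (fun j => (sdL a b j).comp (zL g z0))) (totL.comp (zL g z0))
  have hker : LinearMap.ker L ≠ ⊥ := by
    apply LinearMap.ker_ne_bot_of_finrank_lt
    simp
    exact hN
  obtain ⟨p, hp, hp0⟩ := Submodule.exists_mem_ne_zero_of_ne_bot hker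
  rw [LinearMap.mem_ker] at hp
  have hp1 : ∀ j, sdL a b j (zL g z0 p) = 0 := by
    intro j
    have := congrArg (fun q => q.1 j) hp
    simpa [L] using this
  have hp2 : totL (zL g z0 p) = 0 := by
    have := congrArg (fun q => q.2) hp
    simpa [L] using this
  have hst : ∀ w, stL w (zL g z0 p) = p.1 w := by
    intro w
    show stL w (∑ v, p.1 v • g v + p.2 • z0) = _
    rw [map_add, map_sum, map_smul, h0]
    simp [hg]
  have hq := quad ha (zL g z0 p)
  have hq1 : ∑ i, sd a true i (zL g z0 p) * sd a false i (zL g z0 p) = 0 := by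
    apply Finset.sum_eq_zero
    intro j _
    have h := hp1 j
    cases b
    · have h' : sd a false j (zL g z0 p) = 0 := h
      rw [h', mul_zero]
    · have h' : sd a true j (zL g z0 p) = 0 := h
      rw [h', zero_mul]
  have hq2 : ∑ e, (zL g z0 p) e = 0 := hp2
  rw [hq1, hq2] at hq
  have hq3 : ∑ w, st (zL g z0 p) w ^ 2 = 0 := by linarith
  have hu : p.1 = 0 := by
    funext w
    rw [Finset.sum_eq_zero_iff_of_nonneg (fun w _ => sq_nonneg _)] at hq3
    have h1 := hq3 w (mem_univ _)
    have h2 : st (zL g z0 p) w = p.1 w := hst w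
    rw [h2] at h1
    simpa using h1
  have hl : p.2 ≠ 0 := by
    intro h
    exact hp0 (Prod.ext hu h)
  have h3 := hp1 i
  have h4 : zL g z0 p = p.2 • z0 := by
    show ∑ v, p.1 v • g v + p.2 • z0 = _
    rw [hu]
    simp
  rw [h4, map_smul, smul_eq_mul] at h3
  rcases mul_eq_zero.1 h3 with h | h
  · exact absurd h hl
  · exact h

/-- indicator of the letter `b` -/
def cc (b : Bool) (x : Option Bool) : ℕ := if x = some b then 1 else 0

/-- the coordinate separates -/
def sep (x y : Option Bool) : ℕ :=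
  if (x = some false ∧ y = some true) ∨ (x = some true ∧ y = some false) then 1 else 0

theorem parity : ∀ x01 x02 x03 x12 x13 x23 : Option Bool,
    (∀ b, cc b x01 + cc b x23 = cc b x12 + cc b x03) →
    (∀ b, cc b x01 + cc b x23 = cc b x13 + cc b x02) →
    2 ∣ sep x01 x02 + sep x01 x03 + sep x02 x03 := by
  intro x01 x02 x03 x12 x13 x23 h1 h2
  have h1t := h1 true
  have h1f := h1 false
  have h2t := h2 true
  have h2f := h2 false
  unfold cc at h1t h1f h2t h2f
  unfold sep
  rcases x01 with _ | _ | _ <;> rcases x02 with _ | _ | _ <;> rcases x03 with _ | _ | _ <;>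
    simp at h1t h1f h2t h2f ⊢ <;>
    rcases x12 with _ | _ | _ <;> rcases x13 with _ | _ | _ <;> simp at h1t h1f h2t h2f ⊢ <;>
    rcases x23 with _ | _ | _ <;> simp at h1t h1f h2t h2f ⊢

theorem dist_sep {N : ℕ} {a : Ed n → Fin N → Option Bool}
    (ha : IsAddressing (Tri n) N a) (u v : Ed n) :
    (Tri n).dist u v = ∑ i, sep (a u i) (a v i) := by
  rw [ha u v, Nat.card_eq_fintype_card, Fintype.card_subtype, Finset.card_filter]
  rfl

theorem lower (hn : 4 ≤ n) {N : ℕ} {a : Ed n → Fin N → Option Bool}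
    (ha : IsAddressing (Tri n) N a) : n ≤ N := by
  by_contra hN
  push Not at hN
  obtain ⟨p0, hp0⟩ : ∃ p : Fin n, p.1 = 0 := ⟨⟨0, by omega⟩, rfl⟩
  obtain ⟨p1, hp1⟩ : ∃ p : Fin n, p.1 = 1 := ⟨⟨1, by omega⟩, rfl⟩
  obtain ⟨p2, hp2⟩ : ∃ p : Fin n, p.1 = 2 := ⟨⟨2, by omega⟩, rfl⟩
  obtain ⟨p3, hp3⟩ : ∃ p : Fin n, p.1 = 3 := ⟨⟨3, by omega⟩, rfl⟩
  have n01 : p0 ≠ p1 := fun h => by rw [h] at hp0; omega
  have n02 : p0 ≠ p2 := fun h => by rw [h] at hp0; omega
  have n03 : p0 ≠ p3 := fun h => by rw [h] at hp0; omega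
  have n12 : p1 ≠ p2 := fun h => by rw [h] at hp1; omega
  have n13 : p1 ≠ p3 := fun h => by rw [h] at hp1; omega
  have n23 : p2 ≠ p3 := fun h => by rw [h] at hp2; omega
  let e01 : Ed n := ⟨{p0, p1}, Finset.card_pair n01⟩
  let e02 : Ed n := ⟨{p0, p2}, Finset.card_pair n02⟩
  let e03 : Ed n := ⟨{p0, p3}, Finset.card_pair n03⟩
  let e12 : Ed n := ⟨{p1, p2}, Finset.card_pair n12⟩
  let e13 : Ed n := ⟨{p1, p3}, Finset.card_pair n13⟩
  let e23 : Ed n := ⟨{p2, p3}, Finset.card_pair n23⟩
  have k1 : ∀ (b : Bool) (i : Fin N), cc b (a e01 i) + cc b (a e23 i) =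
      cc b (a e12 i) + cc b (a e03 i) := by
    intro b i
    have h := key (by omega) hN ha (ind e01 - ind e12 + ind e23 - ind e03) (by
      intro w
      rw [map_sub, map_add, map_sub, st_ind, st_ind, st_ind, st_ind]
      simp only [e01, e12, e23, e03, Finset.mem_insert, Finset.mem_singleton]
      by_cases h0 : w = p0
      · subst h0; simp [n01, n02, n03]
      by_cases h1 : w = p1
      · subst h1; simp [n12, n13, h0]
      by_cases h2 : w = p2
      · subst h2; simp [n23, h0, h1]
      by_cases h3 : w = p3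
      · subst h3; simp [h0, h1, h2]
      simp [h0, h1, h2, h3]) b i
    rw [map_sub, map_add, map_sub, sd_ind, sd_ind, sd_ind, sd_ind] at h
    have h' : ((cc b (a e01 i) + cc b (a e23 i) : ℕ) : ℝ) =
        ((cc b (a e12 i) + cc b (a e03 i) : ℕ) : ℝ) := by
      unfold cc
      push_cast
      linarith
    exact_mod_cast h'
  have k2 : ∀ (b : Bool) (i : Fin N), cc b (a e01 i) + cc b (a e23 i) =
      cc b (a e13 i) + cc b (a e02 i) := by
    intro b i
    have h := key (by omega) hN ha (ind e01 - ind e13 + ind e23 - ind e02) (by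
      intro w
      rw [map_sub, map_add, map_sub, st_ind, st_ind, st_ind, st_ind]
      simp only [e01, e13, e23, e02, Finset.mem_insert, Finset.mem_singleton]
      by_cases h0 : w = p0
      · subst h0; simp [n01, n02, n03]
      by_cases h1 : w = p1
      · subst h1; simp [n12, n13, h0]
      by_cases h2 : w = p2
      · subst h2; simp [n23, h0, h1]
      by_cases h3 : w = p3
      · subst h3; simp [h0, h1, h2]
      simp [h0, h1, h2, h3]) b i
    rw [map_sub, map_add, map_sub, sd_ind, sd_ind, sd_ind, sd_ind] at h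
    have h' : ((cc b (a e01 i) + cc b (a e23 i) : ℕ) : ℝ) =
        ((cc b (a e13 i) + cc b (a e02 i) : ℕ) : ℝ) := by
      unfold cc
      push_cast
      linarith
    exact_mod_cast h'
  have i1 : (e01.1 ∩ e02.1).card = 1 := by
    rw [Finset.card_eq_one]
    refine ⟨p0, ?_⟩
    ext w
    simp only [e01, e02, Finset.mem_inter, Finset.mem_insert, Finset.mem_singleton]
    constructor
    · rintro ⟨h | h, h' | h'⟩
      · exact h
      · exact h
      · exact h'
      · exact absurd (h.symm.trans h') n12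
    · intro h; exact ⟨Or.inl h, Or.inl h⟩
  have i2 : (e01.1 ∩ e03.1).card = 1 := by
    rw [Finset.card_eq_one]
    refine ⟨p0, ?_⟩
    ext w
    simp only [e01, e03, Finset.mem_inter, Finset.mem_insert, Finset.mem_singleton]
    constructor
    · rintro ⟨h | h, h' | h'⟩
      · exact h
      · exact h
      · exact h'
      · exact absurd (h.symm.trans h') n13
    · intro h; exact ⟨Or.inl h, Or.inl h⟩
  have i3 : (e02.1 ∩ e03.1).card = 1 := by
    rw [Finset.card_eq_one]
    refine ⟨p0, ?_⟩
    ext w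
    simp only [e02, e03, Finset.mem_inter, Finset.mem_insert, Finset.mem_singleton]
    constructor
    · rintro ⟨h | h, h' | h'⟩
      · exact h
      · exact h
      · exact h'
      · exact absurd (h.symm.trans h') n23
    · intro h; exact ⟨Or.inl h, Or.inl h⟩
  have d1 := dist_add e01 e02
  have d2 := dist_add e01 e03
  have d3 := dist_add e02 e03
  rw [i1, dist_sep ha] at d1
  rw [i2, dist_sep ha] at d2
  rw [i3, dist_sep ha] at d3
  have hs : 2 ∣ ∑ i, (sep (a e01 i) (a e02 i) + sep (a e01 i) (a e03 i) +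
      sep (a e02 i) (a e03 i)) :=
    Finset.dvd_sum fun i _ => parity _ _ _ _ _ _ (fun b => k1 b i) (fun b => k2 b i)
  rw [Finset.sum_add_distrib, Finset.sum_add_distrib] at hs
  omega

theorem le_addressingNumber (hn : 4 ≤ n) : n ≤ addressingNumber (Tri n) := by
  have h : addressingNumber (Tri n) ∈
      {N : ℕ | ∃ a : Ed n → Fin N → Option Bool, IsAddressing (Tri n) N a} :=
    Nat.sInf_mem ⟨_, exists_addressing n⟩
  obtain ⟨a, ha⟩ := h
  exact lower hn ha

end Pool.Agent.V8H30.TN
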