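import Pool.Agent.V8H30.TN.Low2

set_option autoImplicit false

open Finset

namespace Pool.Agent.V8H30.TN

variable {n : ℕ}

/-- combinations of the `g v` and of the `z j` -/
def zL2 {I : Type} [Fintype I] (g : Fin n → Ed n → ℝ) (z : I → Ed n → ℝ) :
    ((Fin n → ℝ) × (I → ℝ)) →ₗ[ℝ] (Ed n → ℝ) where
  toFun p := ∑ v, p.1 v • g v + ∑ j, p.2 j • z j
  map_add' p q := by
    simp only [Prod.fst_add, Prod.snd_add, Pi.add_apply, add_smul, Finset.sum_add_distrib]
    abel
  map_smul' c p := by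
    simp only [Prod.smul_fst, Prod.smul_snd, Pi.smul_apply, smul_eq_mul, mul_smul,
      RingHom.id_apply, smul_add, Finset.smul_sum]

theorem exists_I {N : ℕ} (hn : 3 ≤ n) {a : Ed n → Fin N → Option Bool}
    (ha : IsAddressing (Tri n) N a) (b : Bool) :
    ∃ I : Finset (Fin N), n + I.card ≤ N + 1 ∧
      ∀ z : Ed n → ℝ, (∀ w, stL w z = 0) → (∀ i ∈ I, sdL a b i z = 0) →
        ∀ i, sdL a b i z = 0 := by
  classical
  let P : Set (Finset (Fin N)) := {I | ∀ z : Ed n → ℝ, (∀ w, stL w z = 0) →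
    (∀ i ∈ I, sdL a b i z = 0) → ∀ i, sdL a b i z = 0}
  have hP : P.Nonempty := ⟨univ, fun z _ h i => h i (mem_univ i)⟩
  obtain ⟨I, hI, hmin⟩ := (inferInstance : WellFoundedLT (Finset (Fin N))).wf.has_min P hP
  refine ⟨I, ?_, hI⟩
  have hz : ∀ j : I, ∃ z : Ed n → ℝ, (∀ w, stL w z = 0) ∧
      (∀ i ∈ I, i ≠ j.1 → sdL a b i z = 0) ∧ sdL a b j.1 z ≠ 0 := by
    intro j
    have h1 : ¬ (I.erase j.1 ∈ P) := fun h => hmin _ h (Finset.erase_ssubset j.2)
    have h2 : ¬ (∀ z : Ed n → ℝ, (∀ w, stL w z = 0) →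
      (∀ i ∈ I.erase j.1, sdL a b i z = 0) → ∀ i, sdL a b i z = 0) := h1
    push Not at h2
    obtain ⟨z, hz1, hz2, k, hk⟩ := h2
    refine ⟨z, hz1, fun i hi hij => hz2 i (Finset.mem_erase.2 ⟨hij, hi⟩), ?_⟩
    intro h
    apply hk
    apply hI z hz1
    intro i hi
    by_cases hij : i = j.1
    · rw [hij]; exact h
    · exact hz2 i (Finset.mem_erase.2 ⟨hij, hi⟩)
  choose z hz1 hz2 hz3 using hz
  choose g hg using exists_g hn
  by_contra hcon
  push Not at hcon
  let L : ((Fin n → ℝ) × (I → ℝ)) →ₗ[ℝ] ((Fin N → ℝ) × ℝ) :=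
    LinearMap.prod (LinearMap.pi (fun j => (sdL a b j).comp (zL2 g z))) (totL.comp (zL2 g z))
  have hker : LinearMap.ker L ≠ ⊥ := by
    apply LinearMap.ker_ne_bot_of_finrank_lt
    simp
    omega
  obtain ⟨p, hp, hp0⟩ := Submodule.exists_mem_ne_zero_of_ne_bot hker
  rw [LinearMap.mem_ker] at hp
  have hp1 : ∀ j, sdL a b j (zL2 g z p) = 0 := by
    intro j
    have := congrArg (fun q => q.1 j) hp
    simpa [L] using this
  have hp2 : totL (zL2 g z p) = 0 := by
    have := congrArg (fun q => q.2) hp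
    simpa [L] using this
  have hst : ∀ w, stL w (zL2 g z p) = p.1 w := by
    intro w
    show stL w (∑ v, p.1 v • g v + ∑ j, p.2 j • z j) = _
    rw [map_add, map_sum, map_sum]
    simp [hg, hz1]
  have hq := quad ha (zL2 g z p)
  have hq1 : ∑ i, sd a true i (zL2 g z p) * sd a false i (zL2 g z p) = 0 := by
    apply Finset.sum_eq_zero
    intro j _
    have h := hp1 j
    cases b
    · have h' : sd a false j (zL2 g z p) = 0 := h
      rw [h', mul_zero]
    · have h' : sd a true j (zL2 g z p) = 0 := h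
      rw [h', zero_mul]
  have hq2 : ∑ e, (zL2 g z p) e = 0 := hp2
  rw [hq1, hq2] at hq
  have hq3 : ∑ w, st (zL2 g z p) w ^ 2 = 0 := by linarith
  have hu : p.1 = 0 := by
    funext w
    rw [Finset.sum_eq_zero_iff_of_nonneg (fun w _ => sq_nonneg _)] at hq3
    have h1 := hq3 w (mem_univ _)
    have h2 : st (zL2 g z p) w = p.1 w := hst w
    rw [h2] at h1
    simpa using h1
  apply hp0
  refine Prod.ext hu ?_
  funext j
  have h3 := hp1 j.1
  have h4 : zL2 g z p = ∑ j, p.2 j • z j := by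
    show ∑ v, p.1 v • g v + ∑ j, p.2 j • z j = _
    rw [hu]
    simp
  rw [h4, map_sum, Finset.sum_eq_single j] at h3
  · rw [map_smul, smul_eq_mul] at h3
    rcases mul_eq_zero.1 h3 with h | h
    · exact h
    · exact absurd h (hz3 j)
  · intro l _ hl
    rw [map_smul, hz2 l j.1 j.2 (fun h => hl (Subtype.ext h.symm)), smul_zero]
  · intro h; exact absurd (mem_univ _) h

theorem pivots {V C : Type} [DecidableEq V] [Fintype C] [DecidableEq C] (c : V → V → C) :
    ∀ (m : ℕ) (S : Finset V), (Fintype.card C + 1) ^ m ≤ S.card →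
      ∃ (v : ℕ → V) (col : ℕ → C), (∀ i ≤ m, v i ∈ S) ∧
        (∀ i j, i < j → j ≤ m → v i ≠ v j ∧ c (v i) (v j) = col i) := by
  intro m
  induction m with
  | zero =>
    intro S hS
    rw [pow_zero] at hS
    obtain ⟨x, hx⟩ := Finset.card_pos.1 (by omega : 0 < S.card)
    exact ⟨fun _ => x, fun _ => c x x, fun _ _ => hx, fun i j h1 h2 => by omega⟩
  | succ m ih =>
    intro S hS
    have h1 : 0 < (Fintype.card C + 1) ^ m := by positivity
    have h2 : (Fintype.card C + 1) ^ (m + 1) = Fintype.card C * (Fintype.card C + 1) ^ m +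
      (Fintype.card C + 1) ^ m := by rw [pow_succ]; ring
    obtain ⟨x, hx⟩ := Finset.card_pos.1 (by omega : 0 < S.card)
    have h3 : (S.erase x).card = S.card - 1 := Finset.card_erase_of_mem hx
    have hne : (univ : Finset C).Nonempty := ⟨c x x, mem_univ _⟩
    obtain ⟨y, _, hy⟩ := Finset.exists_le_card_fiber_of_mul_le_card_of_maps_to
      (s := S.erase x) (t := (univ : Finset C)) (f := fun w => c x w)
      (n := (Fintype.card C + 1) ^ m) (fun _ _ => mem_univ _) hne
      (by rw [Finset.card_univ, h3]; omega)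
    obtain ⟨v, col, hv, hc⟩ := ih _ hy
    refine ⟨fun i => if i = 0 then x else v (i - 1), fun i => if i = 0 then y else col (i - 1),
      ?_, ?_⟩
    · intro i hi
      by_cases h : i = 0
      · simp only [h, if_true]; exact hx
      · simp only [h, if_false]
        have := hv (i - 1) (by omega)
        rw [Finset.mem_filter, Finset.mem_erase] at this
        exact this.1.2
    · intro i j hij hj
      have hj0 : ¬ j = 0 := by omega
      have hvj := hv (j - 1) (by omega)
      rw [Finset.mem_filter, Finset.mem_erase] at hvj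
      by_cases h : i = 0
      · simp only [h, if_true, hj0, if_false]
        exact ⟨fun h' => hvj.1.1 h'.symm, hvj.2⟩
      · simp only [h, if_false, hj0]
        exact hc (i - 1) (j - 1) (by omega) (by omega)

theorem exists_K4 {V C : Type} [DecidableEq V] [Fintype C] [DecidableEq C] (c : V → V → C)
    (hc : ∀ x y, c x y = c y x) (S : Finset V)
    (hS : (Fintype.card C + 1) ^ (2 * Fintype.card C + 1) ≤ S.card) :
    ∃ (p q r s : V) (y : C), p ≠ q ∧ p ≠ r ∧ p ≠ s ∧ q ≠ r ∧ q ≠ s ∧ r ≠ s ∧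
      c p q = y ∧ c p r = y ∧ c p s = y ∧ c q r = y ∧ c q s = y ∧ c r s = y := by
  obtain ⟨v, col, _, hv⟩ := pivots c _ S hS
  obtain ⟨y, _, hy⟩ := Finset.exists_lt_card_fiber_of_mul_lt_card_of_maps_to
    (s := Finset.range (2 * Fintype.card C + 1)) (t := (univ : Finset C)) (f := col)
    (n := 2) (fun _ _ => mem_univ _) (by rw [Finset.card_univ, Finset.card_range]; omega)
  rw [Finset.two_lt_card] at hy
  obtain ⟨i, hi, j, hj, k, hk, hij, hik, hjk⟩ := hy
  rw [Finset.mem_filter, Finset.mem_range] at hi hj hk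
  have key2 : ∀ i j, i ≠ j → i < 2 * Fintype.card C + 1 → j < 2 * Fintype.card C + 1 →
      col i = y → col j = y → v i ≠ v j ∧ c (v i) (v j) = y := by
    intro i j hij hi hj h1 h2
    rcases lt_or_gt_of_ne hij with h | h
    · have := hv i j h (by omega)
      exact ⟨this.1, this.2.trans h1⟩
    · have := hv j i h (by omega)
      exact ⟨this.1.symm, (hc _ _).trans (this.2.trans h2)⟩
  have key3 : ∀ i, i < 2 * Fintype.card C + 1 → col i = y →
      v i ≠ v (2 * Fintype.card C + 1) ∧ c (v i) (v (2 * Fintype.card C + 1)) = y := by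
    intro i hi h1
    have := hv i _ hi le_rfl
    exact ⟨this.1, this.2.trans h1⟩
  have a1 := key2 i j hij hi.1 hj.1 hi.2 hj.2
  have a2 := key2 i k hik hi.1 hk.1 hi.2 hk.2
  have a3 := key2 j k hjk hj.1 hk.1 hj.2 hk.2
  have b1 := key3 i hi.1 hi.2
  have b2 := key3 j hj.1 hj.2
  have b3 := key3 k hk.1 hk.2
  exact ⟨v i, v j, v k, v (2 * Fintype.card C + 1), y, a1.1, a2.1, b1.1, a3.1, b2.1, b3.1,
    a1.2, a2.2, b1.2, a3.2, b2.2, b3.2⟩

end Pool.Agent.V8H30.TN
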