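import Pool.Agent.V8H30.TN.Low3

set_option autoImplicit false

open Finset

namespace Pool.Agent.V8H30.TN

variable {n : ℕ}

theorem inter_one {p q r : Fin n} (hqr : q ≠ r) :
    (({p, q} : Finset (Fin n)) ∩ {p, r}).card = 1 := by
  rw [Finset.card_eq_one]
  refine ⟨p, ?_⟩
  ext w
  simp only [Finset.mem_inter, Finset.mem_insert, Finset.mem_singleton]
  constructor
  · rintro ⟨h | h, h' | h'⟩
    · exact h
    · exact h
    · exact h'
    · exact absurd (h.symm.trans h') hqr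
  · intro h; exact ⟨Or.inl h, Or.inl h⟩

theorem st_cycle {p0 p1 p2 p3 : Fin n} (n01 : p0 ≠ p1) (n02 : p0 ≠ p2) (n03 : p0 ≠ p3)
    (n12 : p1 ≠ p2) (n13 : p1 ≠ p3) (n23 : p2 ≠ p3) (w : Fin n) :
    stL w (ind ⟨{p0, p1}, Finset.card_pair n01⟩ - ind ⟨{p1, p2}, Finset.card_pair n12⟩ +
      ind ⟨{p2, p3}, Finset.card_pair n23⟩ - ind ⟨{p0, p3}, Finset.card_pair n03⟩) = 0 := by
  rw [map_sub, map_add, map_sub, st_ind, st_ind, st_ind, st_ind]
  simp only [Finset.mem_insert, Finset.mem_singleton]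
  by_cases h0 : w = p0
  · subst h0; simp [n01, n02, n03]
  by_cases h1 : w = p1
  · subst h1; simp [n12, n13, h0]
  by_cases h2 : w = p2
  · subst h2; simp [n23, h0, h1]
  by_cases h3 : w = p3
  · subst h3; simp [h0, h1, h2]
  simp [h0, h1, h2, h3]

/-- the parity contradiction -/
theorem contra {N : ℕ} {a : Ed n → Fin N → Option Bool} (ha : IsAddressing (Tri n) N a)
    {p0 p1 p2 p3 : Fin n} (n01 : p0 ≠ p1) (n02 : p0 ≠ p2) (n03 : p0 ≠ p3)
    (n12 : p1 ≠ p2) (n13 : p1 ≠ p3) (n23 : p2 ≠ p3)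
    (h1 : ∀ b i, sdL a b i (ind ⟨{p0, p1}, Finset.card_pair n01⟩ -
      ind ⟨{p1, p2}, Finset.card_pair n12⟩ + ind ⟨{p2, p3}, Finset.card_pair n23⟩ -
      ind ⟨{p0, p3}, Finset.card_pair n03⟩) = 0)
    (h2 : ∀ b i, sdL a b i (ind ⟨{p0, p1}, Finset.card_pair n01⟩ -
      ind ⟨{p1, p3}, Finset.card_pair n13⟩ + ind ⟨{p3, p2}, Finset.card_pair n23.symm⟩ -
      ind ⟨{p0, p2}, Finset.card_pair n02⟩) = 0) : False := by
  have e32 : (⟨{p3, p2}, Finset.card_pair n23.symm⟩ : Ed n) =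
      ⟨{p2, p3}, Finset.card_pair n23⟩ := Subtype.ext (Finset.pair_comm _ _)
  rw [e32] at h2
  have k1 : ∀ (b : Bool) (i : Fin N), cc b (a ⟨{p0, p1}, Finset.card_pair n01⟩ i) +
      cc b (a ⟨{p2, p3}, Finset.card_pair n23⟩ i) =
      cc b (a ⟨{p1, p2}, Finset.card_pair n12⟩ i) +
      cc b (a ⟨{p0, p3}, Finset.card_pair n03⟩ i) := by
    intro b i
    have h := h1 b i
    rw [map_sub, map_add, map_sub, sd_ind, sd_ind, sd_ind, sd_ind] at h
    have h' : ((cc b (a ⟨{p0, p1}, Finset.card_pair n01⟩ i) +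
      cc b (a ⟨{p2, p3}, Finset.card_pair n23⟩ i) : ℕ) : ℝ) =
      ((cc b (a ⟨{p1, p2}, Finset.card_pair n12⟩ i) +
      cc b (a ⟨{p0, p3}, Finset.card_pair n03⟩ i) : ℕ) : ℝ) := by
      unfold cc
      push_cast
      linarith
    exact_mod_cast h'
  have k2 : ∀ (b : Bool) (i : Fin N), cc b (a ⟨{p0, p1}, Finset.card_pair n01⟩ i) +
      cc b (a ⟨{p2, p3}, Finset.card_pair n23⟩ i) =
      cc b (a ⟨{p1, p3}, Finset.card_pair n13⟩ i) +
      cc b (a ⟨{p0, p2}, Finset.card_pair n02⟩ i) := by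
    intro b i
    have h := h2 b i
    rw [map_sub, map_add, map_sub, sd_ind, sd_ind, sd_ind, sd_ind] at h
    have h' : ((cc b (a ⟨{p0, p1}, Finset.card_pair n01⟩ i) +
      cc b (a ⟨{p2, p3}, Finset.card_pair n23⟩ i) : ℕ) : ℝ) =
      ((cc b (a ⟨{p1, p3}, Finset.card_pair n13⟩ i) +
      cc b (a ⟨{p0, p2}, Finset.card_pair n02⟩ i) : ℕ) : ℝ) := by
      unfold cc
      push_cast
      linarith
    exact_mod_cast h'
  have d1 := dist_add (⟨{p0, p1}, Finset.card_pair n01⟩ : Ed n) ⟨{p0, p2}, Finset.card_pair n02⟩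
  have d2 := dist_add (⟨{p0, p1}, Finset.card_pair n01⟩ : Ed n) ⟨{p0, p3}, Finset.card_pair n03⟩
  have d3 := dist_add (⟨{p0, p2}, Finset.card_pair n02⟩ : Ed n) ⟨{p0, p3}, Finset.card_pair n03⟩
  rw [dist_sep ha] at d1 d2 d3
  rw [inter_one n12] at d1
  rw [inter_one n13] at d2
  rw [inter_one n23] at d3
  have hs : 2 ∣ ∑ i, (sep (a ⟨{p0, p1}, Finset.card_pair n01⟩ i)
      (a ⟨{p0, p2}, Finset.card_pair n02⟩ i) + sep (a ⟨{p0, p1}, Finset.card_pair n01⟩ i)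
      (a ⟨{p0, p3}, Finset.card_pair n03⟩ i) +
      sep (a ⟨{p0, p2}, Finset.card_pair n02⟩ i) (a ⟨{p0, p3}, Finset.card_pair n03⟩ i)) :=
    Finset.dvd_sum fun i _ => parity _ _ _ _ _ _ (fun b => k1 b i) (fun b => k2 b i)
  rw [Finset.sum_add_distrib, Finset.sum_add_distrib] at hs
  omega

theorem lower_strong {r : ℕ} (hn : (4 ^ r + 1) ^ (2 * 4 ^ r + 1) ≤ n) {N : ℕ}
    {a : Ed n → Fin N → Option Bool} (ha : IsAddressing (Tri n) N a) : n + r ≤ N := by
  classical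
  by_contra hN
  push Not at hN
  have hr1 : 1 ≤ 4 ^ r := Nat.one_le_pow _ _ (by norm_num)
  have hn3 : 3 ≤ n := by
    have h1 : (4 ^ r + 1) ^ 2 ≤ (4 ^ r + 1) ^ (2 * 4 ^ r + 1) :=
      Nat.pow_le_pow_right (by omega) (by omega)
    have h2 : 2 ^ 2 ≤ (4 ^ r + 1) ^ 2 := Nat.pow_le_pow_left (by omega) 2
    omega
  obtain ⟨I, hI, hI2⟩ := exists_I hn3 ha true
  obtain ⟨J, hJ, hJ2⟩ := exists_I hn3 ha false
  have hIr : I.card ≤ r := by omega
  have hJr : J.card ≤ r := by omega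
  let cl : Finset (Fin n) → (I → Bool) × (J → Bool) := fun s =>
    if h : s.card = 2 then (fun i => decide (a ⟨s, h⟩ i.1 = some true),
      fun i => decide (a ⟨s, h⟩ i.1 = some false)) else (fun _ => false, fun _ => false)
  have hC : Fintype.card ((I → Bool) × (J → Bool)) ≤ 4 ^ r := by
    rw [Fintype.card_prod, Fintype.card_fun, Fintype.card_fun, Fintype.card_bool,
      Fintype.card_coe, Fintype.card_coe]
    calc 2 ^ I.card * 2 ^ J.card ≤ 2 ^ r * 2 ^ r :=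
          Nat.mul_le_mul (Nat.pow_le_pow_right (by norm_num) hIr)
            (Nat.pow_le_pow_right (by norm_num) hJr)
      _ = (2 * 2) ^ r := (mul_pow 2 2 r).symm
      _ = 4 ^ r := by norm_num
  have hS : (Fintype.card ((I → Bool) × (J → Bool)) + 1) ^
      (2 * Fintype.card ((I → Bool) × (J → Bool)) + 1) ≤ (univ : Finset (Fin n)).card := by
    rw [Finset.card_fin]
    refine le_trans ?_ hn
    refine le_trans (Nat.pow_le_pow_left (Nat.succ_le_succ hC) _) ?_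
    exact Nat.pow_le_pow_right (by omega) (by omega)
  obtain ⟨p, q, s, t, y, npq, nps, npt, nqs, nqt, nst, c1, c2, c3, c4, c5, c6⟩ :=
    exists_K4 (fun x y => cl {x, y}) (fun x y => by rw [Finset.pair_comm]) univ hS
  have hval : ∀ x z : Fin n, ∀ h : x ≠ z, cl {x, z} = y →
      (∀ i : I, (a ⟨{x, z}, Finset.card_pair h⟩ i.1 = some true) ↔ y.1 i = true) ∧
      (∀ i : J, (a ⟨{x, z}, Finset.card_pair h⟩ i.1 = some false) ↔ y.2 i = true) := by
    intro x z h hy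
    have h2 : cl {x, z} = (fun i => decide (a ⟨{x, z}, Finset.card_pair h⟩ i.1 = some true),
      fun i => decide (a ⟨{x, z}, Finset.card_pair h⟩ i.1 = some false)) :=
      dif_pos (Finset.card_pair h)
    rw [← hy, h2]
    exact ⟨fun i => by simp, fun i => by simp⟩
  have c6' : cl {t, s} = y := by rw [Finset.pair_comm]; exact c6
  have v1 := hval p q npq c1
  have v2 := hval p s nps c2
  have v3 := hval p t npt c3
  have v4 := hval q s nqs c4
  have v5 := hval q t nqt c5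
  have v6 := hval s t nst c6
  have v6' := hval t s nst.symm c6'
  have ncyc1 := st_cycle npq nps npt nqs nqt nst
  have ncyc2 := st_cycle npq npt nps nqt nqs nst.symm
  refine contra ha npq nps npt nqs nqt nst ?_ ?_
  · intro b
    cases b
    · refine hJ2 _ ncyc1 ?_
      intro i hi
      rw [map_sub, map_add, map_sub, sd_ind, sd_ind, sd_ind, sd_ind,
        if_congr (v1.2 ⟨i, hi⟩) rfl rfl, if_congr (v4.2 ⟨i, hi⟩) rfl rfl,
        if_congr (v6.2 ⟨i, hi⟩) rfl rfl, if_congr (v3.2 ⟨i, hi⟩) rfl rfl]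
      ring
    · refine hI2 _ ncyc1 ?_
      intro i hi
      rw [map_sub, map_add, map_sub, sd_ind, sd_ind, sd_ind, sd_ind,
        if_congr (v1.1 ⟨i, hi⟩) rfl rfl, if_congr (v4.1 ⟨i, hi⟩) rfl rfl,
        if_congr (v6.1 ⟨i, hi⟩) rfl rfl, if_congr (v3.1 ⟨i, hi⟩) rfl rfl]
      ring
  · intro b
    cases b
    · refine hJ2 _ ncyc2 ?_
      intro i hi
      rw [map_sub, map_add, map_sub, sd_ind, sd_ind, sd_ind, sd_ind,
        if_congr (v1.2 ⟨i, hi⟩) rfl rfl, if_congr (v5.2 ⟨i, hi⟩) rfl rfl,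
        if_congr (v6'.2 ⟨i, hi⟩) rfl rfl, if_congr (v2.2 ⟨i, hi⟩) rfl rfl]
      ring
    · refine hI2 _ ncyc2 ?_
      intro i hi
      rw [map_sub, map_add, map_sub, sd_ind, sd_ind, sd_ind, sd_ind,
        if_congr (v1.1 ⟨i, hi⟩) rfl rfl, if_congr (v5.1 ⟨i, hi⟩) rfl rfl,
        if_congr (v6'.1 ⟨i, hi⟩) rfl rfl, if_congr (v2.1 ⟨i, hi⟩) rfl rfl]
      ring

theorem le_addressingNumber_strong {r : ℕ} (hn : (4 ^ r + 1) ^ (2 * 4 ^ r + 1) ≤ n) :
    n + r ≤ addressingNumber (Tri n) := by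
  have h : addressingNumber (Tri n) ∈
      {N : ℕ | ∃ a : Ed n → Fin N → Option Bool, IsAddressing (Tri n) N a} :=
    Nat.sInf_mem ⟨_, exists_addressing n⟩
  obtain ⟨a, ha⟩ := h
  exact lower_strong hn ha

end Pool.Agent.V8H30.TN
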