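import Pool.Agent.V8H30.TN.Dist

set_option autoImplicit false

open Finset

namespace Pool.Agent.V8H30.TN

variable {n : ℕ}

/-- the vertices of the triangular graph -/
abbrev Ed (n : ℕ) : Type := {e : Finset (Fin n) // e.card = 2}

theorem dist_add (u v : Ed n) : (Tri n).dist u v + (u.1 ∩ v.1).card = 2 := by
  obtain ⟨a, b, hab, hu⟩ := Finset.card_eq_two.1 u.2
  obtain ⟨c, d, hcd, hv⟩ := Finset.card_eq_two.1 v.2
  rw [dist_eq u v hab hcd hu hv, hu, hv, inter_card hab]
  unfold dG
  simp only [Bool.or_eq_true, Bool.and_eq_true, eG_iff, ← Fin.ext_iff]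
  by_cases h1 : a = c <;> by_cases h2 : a = d <;> by_cases h3 : b = c <;> by_cases h4 : b = d
  all_goals first
    | (exfalso; exact hcd (h1.symm.trans h2))
    | (exfalso; exact hcd (h3.symm.trans h4))
    | (exfalso; exact hab (h1.trans h3.symm))
    | (exfalso; exact hab (h2.trans h4.symm))
    | simp [h1, h2, h3, h4]

/-- the sum over the edges at `w` -/
def st (z : Ed n → ℝ) (w : Fin n) : ℝ := ∑ e : Ed n, if w ∈ e.1 then z e else 0

/-- the sum over one side of a coordinate -/
def sd {N : ℕ} (a : Ed n → Fin N → Option Bool) (b : Bool) (i : Fin N) (z : Ed n → ℝ) : ℝ :=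
  ∑ e : Ed n, if a e i = some b then z e else 0

theorem quad {N : ℕ} {a : Ed n → Fin N → Option Bool} (ha : IsAddressing (Tri n) N a)
    (z : Ed n → ℝ) :
    2 * ∑ i, sd a true i z * sd a false i z = 2 * (∑ e, z e) ^ 2 - ∑ w, st z w ^ 2 := by
  have hD : ∀ u v : Ed n, (∑ i : Fin N, ((if a u i = some true then (1:ℝ) else 0) *
      (if a v i = some false then 1 else 0) + (if a u i = some false then (1:ℝ) else 0) *
      (if a v i = some true then 1 else 0))) =
      2 - ∑ w : Fin n, (if w ∈ u.1 then (1:ℝ) else 0) * (if w ∈ v.1 then 1 else 0) := by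
    intro u v
    have h1 := ha u v
    rw [Nat.card_eq_fintype_card, Fintype.card_subtype] at h1
    have h2 : ((Tri n).dist u v : ℝ) + ((u.1 ∩ v.1).card : ℝ) = 2 := by
      exact_mod_cast dist_add u v
    have h3 : ((u.1 ∩ v.1).card : ℝ) =
        ∑ w : Fin n, (if w ∈ u.1 then (1:ℝ) else 0) * (if w ∈ v.1 then 1 else 0) := by
      rw [Finset.cast_card, ← Finset.sum_filter_add_sum_filter_not univ (fun w => w ∈ u.1 ∩ v.1)]
      have e1 : ∑ w ∈ univ.filter (fun w => w ∈ u.1 ∩ v.1),
          (if w ∈ u.1 then (1:ℝ) else 0) * (if w ∈ v.1 then 1 else 0) =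
          ∑ w ∈ u.1 ∩ v.1, 1 := by
        apply Finset.sum_congr
        · ext w; simp
        · intro w hw
          rw [Finset.mem_inter] at hw
          rw [if_pos hw.1, if_pos hw.2, mul_one]
      have e2 : ∑ w ∈ univ.filter (fun w => ¬ w ∈ u.1 ∩ v.1),
          (if w ∈ u.1 then (1:ℝ) else 0) * (if w ∈ v.1 then 1 else 0) = 0 := by
        apply Finset.sum_eq_zero
        intro w hw
        simp only [Finset.mem_filter, Finset.mem_univ, true_and, Finset.mem_inter, not_and] at hw
        by_cases h : w ∈ u.1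
        · rw [if_neg (hw h), mul_zero]
        · rw [if_neg h, zero_mul]
      rw [e1, e2, add_zero]
    have h4 : ((Tri n).dist u v : ℝ) = ∑ i : Fin N,
        ((if a u i = some true then (1:ℝ) else 0) *
        (if a v i = some false then 1 else 0) + (if a u i = some false then (1:ℝ) else 0) *
        (if a v i = some true then 1 else 0)) := by
      rw [h1, Finset.card_filter, Nat.cast_sum]
      apply Finset.sum_congr rfl
      intro i _
      rcases h5 : a u i with _ | _ | _ <;> rcases h6 : a v i with _ | _ | _ <;> simp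
    rw [← h4, ← h3]
    linarith
  have hL : 2 * ∑ i, sd a true i z * sd a false i z = ∑ u, ∑ v, z u * z v *
      (∑ i : Fin N, ((if a u i = some true then (1:ℝ) else 0) *
      (if a v i = some false then 1 else 0) + (if a u i = some false then (1:ℝ) else 0) *
      (if a v i = some true then 1 else 0))) := by
    have e1 : ∀ i, sd a true i z * sd a false i z = ∑ u, ∑ v, z u * z v *
        ((if a u i = some true then (1:ℝ) else 0) * (if a v i = some false then 1 else 0)) := by
      intro i
      unfold sd
      rw [Finset.sum_mul_sum]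
      refine Finset.sum_congr rfl fun u _ => Finset.sum_congr rfl fun v _ => ?_
      split_ifs <;> ring
    have e2 : ∀ i, sd a true i z * sd a false i z = ∑ u, ∑ v, z u * z v *
        ((if a u i = some false then (1:ℝ) else 0) * (if a v i = some true then 1 else 0)) := by
      intro i
      rw [mul_comm]
      unfold sd
      rw [Finset.sum_mul_sum]
      refine Finset.sum_congr rfl fun u _ => Finset.sum_congr rfl fun v _ => ?_
      split_ifs <;> ring
    rw [two_mul]
    nth_rewrite 1 [Finset.sum_congr rfl (fun i _ => e1 i)]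
    rw [Finset.sum_congr rfl (fun i _ => e2 i), ← Finset.sum_add_distrib]
    simp only [← Finset.sum_add_distrib, ← mul_add]
    rw [Finset.sum_comm]
    refine Finset.sum_congr rfl fun u _ => ?_
    rw [Finset.sum_comm]
    refine Finset.sum_congr rfl fun v _ => ?_
    rw [Finset.mul_sum]
  rw [hL]
  have hR1 : (∑ e, z e) ^ 2 = ∑ u, ∑ v, z u * z v := by rw [sq, Finset.sum_mul_sum]
  have hR2 : ∑ w, st z w ^ 2 = ∑ u, ∑ v, z u * z v *
      ∑ w : Fin n, (if w ∈ u.1 then (1:ℝ) else 0) * (if w ∈ v.1 then 1 else 0) := by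
    have e3 : ∀ w, st z w ^ 2 = ∑ u, ∑ v, z u * z v *
        ((if w ∈ u.1 then (1:ℝ) else 0) * (if w ∈ v.1 then 1 else 0)) := by
      intro w
      unfold st
      rw [sq, Finset.sum_mul_sum]
      refine Finset.sum_congr rfl fun u _ => Finset.sum_congr rfl fun v _ => ?_
      split_ifs <;> ring
    rw [Finset.sum_congr rfl (fun w _ => e3 w), Finset.sum_comm]
    refine Finset.sum_congr rfl fun u _ => ?_
    rw [Finset.sum_comm]
    refine Finset.sum_congr rfl fun v _ => ?_
    rw [Finset.mul_sum]
  rw [hR1, hR2, Finset.mul_sum, ← Finset.sum_sub_distrib]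
  refine Finset.sum_congr rfl fun u _ => ?_
  rw [Finset.mul_sum, ← Finset.sum_sub_distrib]
  refine Finset.sum_congr rfl fun v _ => ?_
  rw [hD u v]
  ring

end Pool.Agent.V8H30.TN
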