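import Pool.Agent.V8H30.TN.Trans

set_option autoImplicit false

namespace Pool.Agent.V8H30.TN

/-- `q` in the inner set of `p` -/
def inn (p q : ℕ) : Bool := iG LN EN sN p q

theorem inn_self (p : ℕ) : inn p p = false := by
  unfold inn iG
  have : eG EN sN p p = true := eG_iff.2 rfl
  rw [this]; rfl

/-- the edge belongs to the first side of the biclique of the diameter `k` -/
def sideA (n k : ℕ) (e : Finset (Fin n)) : Prop :=
  ∃ p ∈ e, p.1 / 2 = k ∧ ∀ q ∈ e, q ≠ p → (q.1 / 2 = k ∨ oG LN EN sN p.1 q.1 = true)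

/-- the edge crosses the diameter `k` -/
def sideB (n k : ℕ) (e : Finset (Fin n)) : Prop :=
  (∀ q ∈ e, q.1 / 2 ≠ k) ∧ (∃ q ∈ e, oG LN EN sN (2 * k) q.1 = true) ∧
    (∃ q ∈ e, oG LN EN sN (2 * k) q.1 = false)

open Classical in
/-- the address of an edge -/
noncomputable def adr (n : ℕ) (e : Finset (Fin n)) : Fin n ⊕ Fin ((n + 1) / 2) → Option Bool
  | Sum.inl p => if p ∈ e then some true else
      if ∀ q ∈ e, inn p.1 q.1 = true then some false else none
  | Sum.inr k => if sideA n k.1 e then some true else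
      if sideB n k.1 e then some false else none

variable {n : ℕ}

theorem adr_inl_true {e : Finset (Fin n)} {p : Fin n} :
    adr n e (Sum.inl p) = some true ↔ p ∈ e := by
  simp only [adr]
  split_ifs with h1 h2 <;> simp [h1]

theorem adr_inl_false {e : Finset (Fin n)} {p : Fin n} :
    adr n e (Sum.inl p) = some false ↔ ∀ q ∈ e, inn p.1 q.1 = true := by
  simp only [adr]
  split_ifs with h1 h2
  · simp only [Option.some.injEq, Bool.true_eq_false, false_iff]
    intro h
    have := h p h1
    rw [inn_self] at this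
    exact absurd this (by decide)
  · simp only [true_iff]; exact h2
  · simp only [reduceCtorEq, false_iff]; exact h2

theorem AB {e : Finset (Fin n)} {k : ℕ} (hA : sideA n k e) (hB : sideB n k e) : False := by
  obtain ⟨p, hp, h1, -⟩ := hA
  exact hB.1 p hp h1

theorem adr_inr_true {e : Finset (Fin n)} {k : Fin ((n + 1) / 2)} :
    adr n e (Sum.inr k) = some true ↔ sideA n k.1 e := by
  simp only [adr]
  split_ifs with h1 h2 <;> simp [h1]

theorem adr_inr_false {e : Finset (Fin n)} {k : Fin ((n + 1) / 2)} :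
    adr n e (Sum.inr k) = some false ↔ sideB n k.1 e := by
  simp only [adr]
  split_ifs with h1 h2
  · simp only [Option.some.injEq, Bool.true_eq_false, false_iff]
    intro h
    exact AB h1 h
  · simp only [true_iff]; exact h2
  · simp only [reduceCtorEq, false_iff]; exact h2

theorem sideA_iff {a b : Fin n} (hab : a ≠ b) {k : ℕ} :
    sideA n k {a, b} ↔ k = (tG LN EN sN a.1 b.1) / 2 := by
  have hab' : a.1 ≠ b.1 := fun h => hab (Fin.ext h)
  unfold sideA tG oG LN EN sN
  simp only [Finset.mem_insert, Finset.mem_singleton, exists_eq_or_imp, exists_eq_left,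
    forall_eq_or_imp, forall_eq, ne_eq, not_true_eq_false, false_implies, true_and, and_true]
  rcases Nat.lt_trichotomy (a.1 / 2) (b.1 / 2) with h | h | h
  · rcases Nat.mod_two_eq_zero_or_one a.1 with ha | ha <;>
    rcases Nat.mod_two_eq_zero_or_one b.1 with hb | hb <;>
    simp [ha, hb, h, h.ne, h.ne', h.not_gt, hab, hab.symm] <;> omega
  · simp [h, hab, hab.symm, eq_comm]
  · rcases Nat.mod_two_eq_zero_or_one a.1 with ha | ha <;>
    rcases Nat.mod_two_eq_zero_or_one b.1 with hb | hb <;>
    simp [ha, hb, h, h.ne, h.ne', h.not_gt, hab, hab.symm] <;> omega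

theorem sideB_iff {c d : Fin n} {t : ℕ} :
    sideB n (t / 2) {c, d} ↔ bG LN EN sN t c.1 d.1 = true := by
  unfold sideB bG oG LN EN sN
  simp only [Finset.mem_insert, Finset.mem_singleton, exists_eq_or_imp, exists_eq_left,
    forall_eq_or_imp, forall_eq, ne_eq]
  have e1 : 2 * (t / 2) / 2 = t / 2 := by omega
  have e2 : 2 * (t / 2) % 2 = 0 := by omega
  rw [e1, e2]
  by_cases h1 : t / 2 = c.1 / 2
  · simp [h1]
  · by_cases h2 : t / 2 = d.1 / 2
    · simp [h2]
    · have h1' : ¬ c.1 / 2 = t / 2 := fun h => h1 h.symm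
      have h2' : ¬ d.1 / 2 = t / 2 := fun h => h2 h.symm
      by_cases h3 : t / 2 < c.1 / 2 <;> by_cases h4 : t / 2 < d.1 / 2 <;>
      rcases Nat.mod_two_eq_zero_or_one c.1 with hc | hc <;>
      rcases Nat.mod_two_eq_zero_or_one d.1 with hd | hd <;>
      simp [h1, h2, h1', h2', h3, h4, hc, hd]

theorem card_pair_filter {α : Type} [DecidableEq α] {a b : α} (hab : a ≠ b) (F : α → Bool) :
    (({a, b} : Finset α).filter (fun p => F p = true)).card = (F a).toNat + (F b).toNat := by
  rw [Finset.card_filter, Finset.sum_pair hab]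
  congr 1
  · cases F a <;> rfl
  · cases F b <;> rfl

theorem all_inn {p c d : Fin n} : (∀ q ∈ ({c, d} : Finset (Fin n)), inn p.1 q.1 = true) ↔
    (iG LN EN sN p.1 c.1 && iG LN EN sN p.1 d.1) = true := by
  simp only [Finset.mem_insert, Finset.mem_singleton, forall_eq_or_imp, forall_eq,
    Bool.and_eq_true]
  rfl

theorem tail_lt {a b : Fin n} : (tG LN EN sN a.1 b.1) / 2 < (n + 1) / 2 := by
  have ha := a.2
  have hb := b.2
  unfold tG
  split_ifs <;> omega

/-- the number of distinguishing coordinates -/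
theorem count {a b c d : Fin n} (hab : a ≠ b) (hcd : c ≠ d) :
    (Finset.univ.filter (fun i : Fin n ⊕ Fin ((n + 1) / 2) =>
      (adr n {a, b} i = some false ∧ adr n {c, d} i = some true) ∨
      (adr n {a, b} i = some true ∧ adr n {c, d} i = some false))).card =
      cG LN EN sN a.1 b.1 c.1 d.1 := by
  rw [Finset.card_filter, Fintype.sum_sum_type, ← Finset.card_filter, ← Finset.card_filter]
  have h1 : Finset.univ.filter (fun p : Fin n =>
      (adr n {a, b} (Sum.inl p) = some false ∧ adr n {c, d} (Sum.inl p) = some true) ∨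
      (adr n {a, b} (Sum.inl p) = some true ∧ adr n {c, d} (Sum.inl p) = some false)) =
      ({a, b} : Finset (Fin n)).filter
        (fun p => (iG LN EN sN p.1 c.1 && iG LN EN sN p.1 d.1) = true) ∪
      ({c, d} : Finset (Fin n)).filter
        (fun p => (iG LN EN sN p.1 a.1 && iG LN EN sN p.1 b.1) = true) := by
    ext p
    rw [Finset.mem_union, Finset.mem_filter, Finset.mem_filter, Finset.mem_filter,
      adr_inl_true, adr_inl_false, adr_inl_true, adr_inl_false, all_inn, all_inn]
    constructor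
    · rintro ⟨-, ⟨h, h'⟩ | ⟨h, h'⟩⟩
      · exact Or.inr ⟨h', h⟩
      · exact Or.inl ⟨h, h'⟩
    · rintro (⟨h, h'⟩ | ⟨h, h'⟩)
      · exact ⟨Finset.mem_univ _, Or.inr ⟨h, h'⟩⟩
      · exact ⟨Finset.mem_univ _, Or.inl ⟨h', h⟩⟩
  have h2 : Finset.univ.filter (fun k : Fin ((n + 1) / 2) =>
      (adr n {a, b} (Sum.inr k) = some false ∧ adr n {c, d} (Sum.inr k) = some true) ∨
      (adr n {a, b} (Sum.inr k) = some true ∧ adr n {c, d} (Sum.inr k) = some false)) =
      ({⟨_, tail_lt (a := a) (b := b)⟩} : Finset (Fin ((n + 1) / 2))).filter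
        (fun _ => bG LN EN sN (tG LN EN sN a.1 b.1) c.1 d.1 = true) ∪
      ({⟨_, tail_lt (a := c) (b := d)⟩} : Finset (Fin ((n + 1) / 2))).filter
        (fun _ => bG LN EN sN (tG LN EN sN c.1 d.1) a.1 b.1 = true) := by
    ext k
    rw [Finset.mem_union, Finset.mem_filter, Finset.mem_filter, Finset.mem_filter,
      Finset.mem_singleton, Finset.mem_singleton, adr_inr_true, adr_inr_false, adr_inr_true,
      adr_inr_false, sideA_iff hab, sideA_iff hcd, Fin.ext_iff, Fin.ext_iff, ← sideB_iff,
      ← sideB_iff]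
    constructor
    · rintro ⟨-, ⟨h, h'⟩ | ⟨h, h'⟩⟩
      · exact Or.inr ⟨h', h' ▸ h⟩
      · exact Or.inl ⟨h, h ▸ h'⟩
    · rintro (⟨h, h'⟩ | ⟨h, h'⟩)
      · exact ⟨Finset.mem_univ _, Or.inr ⟨h, by rw [h]; exact h'⟩⟩
      · exact ⟨Finset.mem_univ _, Or.inl ⟨by rw [h]; exact h', h⟩⟩
  rw [h1, h2, Finset.card_union_of_disjoint, Finset.card_union_of_disjoint]
  · rw [card_pair_filter hab (fun p => iG LN EN sN p.1 c.1 && iG LN EN sN p.1 d.1),
      card_pair_filter hcd (fun p => iG LN EN sN p.1 a.1 && iG LN EN sN p.1 b.1),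
      Finset.filter_singleton, Finset.filter_singleton]
    unfold cG
    have f : ∀ (x : Bool) (k : Fin ((n + 1) / 2)),
        (if x = true then ({k} : Finset (Fin ((n + 1) / 2))) else ∅).card = x.toNat := by
      intro x k; cases x <;> rfl
    rw [f, f]
    ring
  · rw [Finset.disjoint_left]
    intro k hk hk'
    rw [Finset.mem_filter, Finset.mem_singleton, Fin.ext_iff, ← sideB_iff] at hk hk'
    apply AB (e := ({a, b} : Finset (Fin n))) (k := k.1)
    · rw [sideA_iff hab]; exact hk.1
    · rw [hk'.1]; exact hk'.2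
  · rw [Finset.disjoint_left]
    intro p hp hp'
    rw [Finset.mem_filter] at hp hp'
    have h3 := all_inn.2 hp'.2 p hp.1
    rw [inn_self] at h3
    exact absurd h3 (by decide)

end Pool.Agent.V8H30.TN
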