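import Pool.Agent.V8H30.TN.Comb

set_option autoImplicit false

namespace Pool.Agent.V8H30.TN

theorem tG_map {α β : Type} (f : β → α) (L E : α → α → Bool) (s : α → Bool) (a b : β) :
    f (tG (fun i j => L (f i) (f j)) (fun i j => E (f i) (f j)) (fun i => s (f i)) a b) =
      tG L E s (f a) (f b) := by
  unfold tG oG
  split_ifs <;> rfl

theorem cG_map {α β : Type} (f : β → α) (L E : α → α → Bool) (s : α → Bool) (a b c d : β) :
    cG (fun i j => L (f i) (f j)) (fun i j => E (f i) (f j)) (fun i => s (f i)) a b c d =
      cG L E s (f a) (f b) (f c) (f d) := by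
  have h1 := tG_map f L E s a b
  have h2 := tG_map f L E s c d
  unfold cG
  rw [← h1, ← h2]
  rfl

theorem dG_map {α β : Type} (f : β → α) (E : α → α → Bool) (s : α → Bool) (a b c d : β) :
    dG (fun i j => E (f i) (f j)) (fun i => s (f i)) a b c d =
      dG E s (f a) (f b) (f c) (f d) := rfl

/-- comparisons on `ℕ` -/
def LN (p q : ℕ) : Bool := decide (p / 2 < q / 2)
def EN (p q : ℕ) : Bool := decide (p / 2 = q / 2)
def sN (p : ℕ) : Bool := decide (p % 2 = 1)

theorem main_nat {a b c d : ℕ} (hab : a ≠ b) (hcd : c ≠ d) :
    cG LN EN sN a b c d = dG EN sN a b c d := by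
  set x : Fin 4 → ℕ := ![a, b, c, d] with hx
  set S : Fin 4 → Finset (Fin 4) := fun i => Finset.univ.filter (fun j => x j / 2 < x i / 2) with hS
  have hS4 : ∀ i, (S i).card < 4 := by
    intro i
    have h1 : S i ⊂ Finset.univ := by
      rw [Finset.ssubset_univ_iff]
      intro h
      have : i ∈ S i := by rw [h]; exact Finset.mem_univ _
      simp [hS] at this
    have h2 := Finset.card_lt_card h1
    simpa using h2
  set r : Fin 4 → Fin 4 := fun i => ⟨(S i).card, hS4 i⟩ with hr
  have hlt : ∀ i j, x i / 2 < x j / 2 → r i < r j := by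
    intro i j h
    show (S i).card < (S j).card
    apply Finset.card_lt_card
    rw [Finset.ssubset_iff_of_subset]
    · exact ⟨i, by simp [hS, h], by simp [hS]⟩
    · intro l hl
      simp only [hS, Finset.mem_filter, Finset.mem_univ, true_and] at hl ⊢
      omega
  have heq : ∀ i j, x i / 2 = x j / 2 → r i = r j := by
    intro i j h
    apply Fin.ext
    show (S i).card = (S j).card
    congr 1
    simp only [hS]
    rw [h]
  have hL : (fun i j => LN (x i) (x j)) = fun i j => decide (r i < r j) := by
    funext i j
    unfold LN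
    rw [decide_eq_decide]
    constructor
    · exact hlt i j
    · intro h
      by_contra hcon
      rcases lt_or_eq_of_le (not_lt.1 hcon) with h1 | h1
      · exact absurd (hlt j i h1) (not_lt.2 h.le)
      · exact absurd (heq j i h1) h.ne'
  have hE : (fun i j => EN (x i) (x j)) = fun i j => decide (r i = r j) := by
    funext i j
    unfold EN
    rw [decide_eq_decide]
    constructor
    · exact heq i j
    · intro h
      by_contra hcon
      rcases lt_or_gt_of_ne hcon with h1 | h1
      · exact absurd h (hlt i j h1).ne
      · exact absurd h (hlt j i h1).ne'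
  have hc := check (r 0) (r 1) (r 2) (r 3) (sN (x 0)) (sN (x 1)) (sN (x 2)) (sN (x 3))
  have hr4 : ![r 0, r 1, r 2, r 3] = r := by
    funext i; fin_cases i <;> rfl
  have hs4 : ![sN (x 0), sN (x 1), sN (x 2), sN (x 3)] = fun i => sN (x i) := by
    funext i; fin_cases i <;> rfl
  simp only [hr4, hs4] at hc
  rw [← hL, ← hE] at hc
  have e1 : eG (fun i j => EN (x i) (x j)) (fun i => sN (x i)) 0 1 = false := by
    have : eG EN sN a b = false := by
      unfold eG EN sN
      rw [Bool.and_eq_false_iff]
      by_cases h : a / 2 = b / 2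
      · right
        rw [beq_eq_false_iff_ne]
        intro h2
        rw [decide_eq_decide] at h2
        omega
      · left
        exact decide_eq_false h
    exact this
  have e2 : eG (fun i j => EN (x i) (x j)) (fun i => sN (x i)) 2 3 = false := by
    have : eG EN sN c d = false := by
      unfold eG EN sN
      rw [Bool.and_eq_false_iff]
      by_cases h : c / 2 = d / 2
      · right
        rw [beq_eq_false_iff_ne]
        intro h2
        rw [decide_eq_decide] at h2
        omega
      · left
        exact decide_eq_false h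
    exact this
  rw [e1, e2, Bool.false_or, Bool.false_or, beq_iff_eq, cG_map x LN EN sN, dG_map x EN sN] at hc
  exact hc

theorem eG_iff {a b : ℕ} : eG EN sN a b = true ↔ a = b := by
  unfold eG EN sN
  rw [Bool.and_eq_true, beq_iff_eq, decide_eq_decide, decide_eq_true_eq]
  constructor
  · rintro ⟨h1, h2⟩; omega
  · rintro rfl; exact ⟨rfl, Iff.rfl⟩

end Pool.Agent.V8H30.TN
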